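import Mathlib

/-! Orders of permutations and the weight `w m = ∑ p ^ v_p(m)`. -/

set_option autoImplicit false

namespace Pool.Agent.Q278.OS

open Finset

/-- The sum of the prime powers exactly dividing `m`. -/
def w (m : ℕ) : ℕ := ∑ p ∈ m.primeFactors, p ^ m.factorization p

lemma w_one : w 1 = 0 := by simp [w]

lemma w_mul {a b : ℕ} (h : Nat.Coprime a b) : w (a * b) = w a + w b := by
  unfold w
  rw [Nat.Coprime.primeFactors_mul h, Finset.sum_union (Nat.Coprime.disjoint_primeFactors h)]
  congr 1
  · refine Finset.sum_congr rfl fun p hp => ?_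
    rw [Nat.factorization_eq_of_coprime_left h (by simpa using hp)]
  · refine Finset.sum_congr rfl fun p hp => ?_
    rw [Nat.factorization_eq_of_coprime_right h (by simpa using hp)]

lemma w_le (a : ℕ) (ha : a ≠ 0) : w a ≤ a := by
  induction a using Nat.recOnPosPrimePosCoprime with
  | prime_pow p n hp hn =>
    unfold w
    rw [Nat.primeFactors_prime_pow hn.ne' hp, Finset.sum_singleton, hp.factorization_pow]
    simp
  | zero => exact absurd rfl ha
  | one => simp [w]
  | coprime a b ha1 hb1 hab iha ihb =>
    rw [w_mul hab]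
    have h1 := iha (by omega)
    have h2 := ihb (by omega)
    nlinarith

/-- Subadditivity under least common multiples. -/
lemma w_lcm_le (a b : ℕ) (ha : a ≠ 0) (hb : b ≠ 0) : w (Nat.lcm a b) ≤ w a + w b := by
  unfold w
  have hpf : (Nat.lcm a b).primeFactors = a.primeFactors ∪ b.primeFactors := by
    ext p
    simp only [Nat.mem_primeFactors, Finset.mem_union, ne_eq, Nat.lcm_eq_zero_iff]
    constructor
    · rintro ⟨hp, hd, _⟩
      rcases (Nat.Prime.dvd_lcm hp).mp hd with h | h
      · exact Or.inl ⟨hp, h, ha⟩
      · exact Or.inr ⟨hp, h, hb⟩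
    · rintro (⟨hp, h, _⟩ | ⟨hp, h, _⟩)
      · exact ⟨hp, h.trans (Nat.dvd_lcm_left a b), by tauto⟩
      · exact ⟨hp, h.trans (Nat.dvd_lcm_right a b), by tauto⟩
  rw [hpf]
  have hfac : ∀ p, (Nat.lcm a b).factorization p = max (a.factorization p) (b.factorization p) := by
    intro p
    rw [Nat.factorization_lcm ha hb]; rfl
  have h1 : ∑ p ∈ a.primeFactors ∪ b.primeFactors, p ^ (Nat.lcm a b).factorization p ≤
      ∑ p ∈ a.primeFactors ∪ b.primeFactors,
        ((if p ∈ a.primeFactors then p ^ a.factorization p else 0) +
         (if p ∈ b.primeFactors then p ^ b.factorization p else 0)) := by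
    refine Finset.sum_le_sum fun p hp => ?_
    rw [hfac]
    by_cases h : a.factorization p ≤ b.factorization p
    · rw [max_eq_right h]
      by_cases hb' : p ∈ b.primeFactors
      · rw [if_pos hb']; omega
      · have ha' : p ∈ a.primeFactors := by
          rcases Finset.mem_union.mp hp with h' | h'
          · exact h'
          · exact absurd h' hb'
        have hb0 : b.factorization p = 0 := by
          rw [← Nat.support_factorization] at hb'
          exact Finsupp.notMem_support_iff.mp hb'
        have ha0 : a.factorization p ≠ 0 := by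
          rw [← Nat.support_factorization] at ha'
          exact Finsupp.mem_support_iff.mp ha'
        omega
    · rw [not_le] at h
      rw [max_eq_left h.le]
      have ha' : p ∈ a.primeFactors := by
        rw [← Nat.support_factorization, Finsupp.mem_support_iff]; omega
      rw [if_pos ha']; omega
  refine h1.trans ?_
  rw [Finset.sum_add_distrib]
  refine add_le_add (le_of_eq ?_) (le_of_eq ?_)
  · rw [← Finset.sum_filter]
    congr 1
    ext p; simp only [Finset.mem_filter, Finset.mem_union]; tauto
  · rw [← Finset.sum_filter]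
    congr 1
    ext p; simp only [Finset.mem_filter, Finset.mem_union]; tauto

lemma w_multiset_lcm (s : Multiset ℕ) (hs : ∀ a ∈ s, a ≠ 0) : w s.lcm ≤ s.sum ∧ s.lcm ≠ 0 := by
  induction s using Multiset.induction_on with
  | empty => simp [w]
  | cons a s ih =>
    have ha : a ≠ 0 := hs a (Multiset.mem_cons_self a s)
    have ih' := ih (fun b hb => hs b (Multiset.mem_cons_of_mem hb))
    rw [Multiset.lcm_cons, Multiset.sum_cons]
    have hl : (GCDMonoid.lcm a s.lcm : ℕ) = Nat.lcm a s.lcm := rfl
    rw [hl]
    refine ⟨(w_lcm_le a s.lcm ha ih'.2).trans ?_, Nat.lcm_ne_zero ha ih'.2⟩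
    have := w_le a ha
    omega

/-- The order of a permutation of `n` points has weight at most `n`. -/
lemma w_orderOf (n : ℕ) (σ : Equiv.Perm (Fin n)) : w (orderOf σ) ≤ n ∧ orderOf σ ≠ 0 := by
  have h := w_multiset_lcm σ.cycleType (fun a ha => by
    have := Equiv.Perm.two_le_of_mem_cycleType ha; omega)
  rw [Equiv.Perm.lcm_cycleType, Equiv.Perm.sum_cycleType] at h
  refine ⟨h.1.trans ?_, h.2⟩
  have := σ.support.card_le_univ
  simpa using this

/-- The set of element orders of the symmetric group on `n` letters. -/
noncomputable def Ords (n : ℕ) : Finset ℕ := (Finset.univ : Finset (Equiv.Perm (Fin n))).image orderOf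


/-- The primes up to `N`. -/
def PS (N : ℕ) : Finset ℕ := (Finset.range (N + 1)).filter Nat.Prime

/-- Weight of a prime power, `0` for exponent `0`. -/
def e (p v : ℕ) : ℕ := if v = 0 then 0 else p ^ v

open Polynomial

/-- The generating polynomial of the integers of weight at most `N`. -/
noncomputable def P (N : ℕ) : ℕ[X] :=
  ∏ p ∈ PS N, ∑ v ∈ Finset.range (Nat.log p N + 1), X ^ e p v

/-- Total weight of an exponent vector. -/
def W (N : ℕ) (q : (a : ℕ) → a ∈ PS N → ℕ) : ℕ := ∑ x ∈ (PS N).attach, e x.1 (q x.1 x.2)

lemma P_eq (N : ℕ) : P N = ∑ q ∈ (PS N).pi (fun p => Finset.range (Nat.log p N + 1)), X ^ W N q := by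
  unfold P
  rw [Finset.prod_sum]
  refine Finset.sum_congr rfl fun q _ => ?_
  rw [Finset.prod_pow_eq_pow_sum]; rfl

/-- The number of exponent vectors of weight at most `n`. -/
noncomputable def Cn (N n : ℕ) : ℕ := ∑ j ∈ Finset.range (n + 1), (P N).coeff j

lemma Cn_eq (N n : ℕ) : Cn N n =
    (((PS N).pi (fun p => Finset.range (Nat.log p N + 1))).filter (fun q => W N q ≤ n)).card := by
  unfold Cn
  simp only [P_eq, finsetSum_coeff, coeff_X_pow]
  rw [Finset.sum_comm, Finset.card_eq_sum_ones, Finset.sum_filter]
  refine Finset.sum_congr rfl fun q _ => ?_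
  rw [Finset.sum_ite_eq' (Finset.range (n + 1)) (W N q) (fun _ => 1)]
  simp [Nat.lt_succ_iff]

lemma mem_PS {N p : ℕ} : p ∈ PS N ↔ p ≤ N ∧ p.Prime := by
  simp [PS, Nat.lt_succ_iff]

/-- Orders of permutations of `n` points inject into the exponent vectors of weight at most `n`. -/
lemma card_Ords_le (N n : ℕ) (hn : n ≤ N) : (Ords n).card ≤ Cn N n := by
  classical
  rw [Cn_eq]
  have key : ∀ m ∈ Ords n, w m ≤ n ∧ m ≠ 0 := by
    intro m hm
    obtain ⟨σ, _, rfl⟩ := Finset.mem_image.mp hm
    exact w_orderOf n σ
  have hle : ∀ m ∈ Ords n, ∀ p, p.Prime → m.factorization p ≠ 0 → p ^ m.factorization p ≤ n := by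
    intro m hm p _ h0
    refine le_trans ?_ (key m hm).1
    unfold w
    refine Finset.single_le_sum (f := fun p => p ^ m.factorization p) (fun _ _ => Nat.zero_le _) ?_
    rw [← Nat.support_factorization, Finsupp.mem_support_iff]
    exact h0
  refine Finset.card_le_card_of_injOn (fun m => fun p _ => m.factorization p) ?_ ?_
  · intro m hm
    have hm' : m ∈ Ords n := hm
    simp only [Finset.coe_filter, Set.mem_ofPred_eq, Finset.mem_pi, Finset.mem_range]
    constructor
    · intro p hp
      rw [mem_PS] at hp
      by_cases h0 : m.factorization p = 0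
      · omega
      · have := hle m hm' p hp.2 h0
        have h1 : m.factorization p ≤ Nat.log p N :=
          Nat.le_log_of_pow_le hp.2.one_lt (this.trans hn)
        omega
    · refine le_trans (le_of_eq ?_) (key m hm').1
      unfold W w
      rw [Finset.sum_attach (PS N) (fun p => e p (m.factorization p))]
      symm
      refine Finset.sum_subset_zero_on_sdiff ?_ ?_ ?_
      · intro p hp
        rw [mem_PS]
        have hp' := Nat.prime_of_mem_primeFactors hp
        have h0 : m.factorization p ≠ 0 := by
          rw [← Nat.support_factorization, Finsupp.mem_support_iff] at hp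
          exact hp
        refine ⟨?_, hp'⟩
        calc p = p ^ 1 := (pow_one p).symm
          _ ≤ p ^ m.factorization p := Nat.pow_le_pow_right hp'.pos (by omega)
          _ ≤ n := hle m hm' p hp' h0
          _ ≤ N := hn
      · intro p hp
        rw [Finset.mem_sdiff] at hp
        have : m.factorization p = 0 := by
          rw [← Nat.support_factorization] at hp
          exact Finsupp.notMem_support_iff.mp hp.2
        simp [e, this]
      · intro p hp
        have : m.factorization p ≠ 0 := by
          rw [← Nat.support_factorization, Finsupp.mem_support_iff] at hp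
          exact hp
        simp [e, this]
  · intro m hm m' hm' h
    have k1 := key m hm
    have k2 := key m' hm'
    refine Nat.eq_of_factorization_eq k1.2 k2.2 fun p => ?_
    by_cases hp : p ∈ PS N
    · exact congrFun (congrFun h p) hp
    · have hz : ∀ m ∈ Ords n, m.factorization p = 0 := by
        intro m hm
        by_contra h0
        have hpp : p.Prime := by
          by_contra hnp
          exact h0 (Nat.factorization_eq_zero_of_not_prime m hnp)
        apply hp
        rw [mem_PS]
        refine ⟨?_, hpp⟩
        calc p = p ^ 1 := (pow_one p).symm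
          _ ≤ p ^ m.factorization p := Nat.pow_le_pow_right hpp.pos (by omega)
          _ ≤ n := hle m hm p hpp h0
          _ ≤ N := hn
      rw [hz m hm, hz m' hm']

/-- Rankin's bound. -/
lemma Cn_rankin (N n : ℕ) (x : ℝ) (hx0 : 0 < x) (hx1 : x ≤ 1) :
    (Cn N n : ℝ) * x ^ n ≤ ∏ p ∈ PS N, ∑ v ∈ Finset.range (Nat.log p N + 1), x ^ e p v := by
  have h1 : ((∏ p ∈ PS N, ∑ v ∈ Finset.range (Nat.log p N + 1), x ^ e p v : ℝ)) =
      ∑ q ∈ (PS N).pi (fun p => Finset.range (Nat.log p N + 1)), x ^ W N q := by
    rw [Finset.prod_sum]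
    refine Finset.sum_congr rfl fun q _ => ?_
    rw [Finset.prod_pow_eq_pow_sum]; rfl
  rw [h1, Cn_eq, Finset.card_eq_sum_ones, Nat.cast_sum, Finset.sum_mul]
  refine le_trans (Finset.sum_le_sum (g := fun q => x ^ W N q) fun q hq => ?_)
    (Finset.sum_le_sum_of_subset_of_nonneg (Finset.filter_subset _ _) fun q _ _ => by positivity)
  have hq' := (Finset.mem_filter.mp hq).2
  rw [Nat.cast_one, one_mul]
  exact pow_le_pow_of_le_one hx0.le hx1 hq'

end Pool.Agent.Q278.OS
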