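import Mathlib
import Pool.Agent.Q278.OS.Ord

/-! The analytic bound for the number of exponent vectors, `n ≥ 8000`. -/

set_option autoImplicit false

namespace Pool.Agent.Q278.OS

open Finset

/-! ### Integers coprime to 210 -/

/-- number of `k < m` coprime to `210` -/
def ct (m : ℕ) : ℕ := Nat.count (fun k => Nat.Coprime k 210) m

lemma ct210 : ct 210 = 48 := by decide +kernel

lemma ct_succ (m : ℕ) : ct (m + 1) = ct m + if Nat.Coprime m 210 then 1 else 0 := by
  unfold ct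
  exact Nat.count_succ _ m

lemma ct_add (m : ℕ) : ct (210 + m) = 48 + ct m := by
  induction m with
  | zero =>
    rw [Nat.add_zero, ct210]
    have : ct 0 = 0 := Nat.count_zero _
    rw [this]
  | succ m ih =>
    rw [← Nat.add_assoc, ct_succ, ct_succ, ih]
    simp only [Nat.coprime_self_add_left]
    omega

lemma ct_small : ∀ m < 210, Nat.Coprime m 210 → 35 * ct m ≤ 8 * m + 35 := by decide +kernel

lemma ct_le (m : ℕ) (hm : Nat.Coprime m 210) : 35 * ct m ≤ 8 * m + 35 := by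
  induction m using Nat.strong_induction_on with
  | _ m ih =>
    by_cases h : m < 210
    · exact ct_small m h hm
    · obtain ⟨k, rfl⟩ := Nat.exists_eq_add_of_le (not_lt.mp h)
      rw [Nat.coprime_self_add_left] at hm
      have := ih k (by omega) hm
      rw [ct_add]
      omega

lemma ct_inj {m m' : ℕ} (hm : Nat.Coprime m 210) (hm' : Nat.Coprime m' 210) (h : ct m = ct m') :
    m = m' := Nat.count_injective hm hm' h

lemma ct_pos {m : ℕ} (hm : 1 < m) : 1 ≤ ct m := by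
  have h1 : ct 2 = 1 := by decide
  have : ct 2 ≤ ct m := Nat.count_monotone _ hm
  omega

lemma ct_le_self (m : ℕ) : ct m ≤ m := by
  unfold ct
  exact Nat.count_le _

/-! ### The product -/

lemma one_add_sum_le_prod (s : Finset ℕ) (f : ℕ → ℝ) (hf : ∀ i ∈ s, 0 ≤ f i) :
    1 + ∑ i ∈ s, f i ≤ ∏ i ∈ s, (1 + f i) := by
  classical
  induction s using Finset.induction_on with
  | empty => simp
  | insert a s ha ih =>
    rw [Finset.sum_insert ha, Finset.prod_insert ha]
    have h1 := ih (fun i hi => hf i (Finset.mem_insert_of_mem hi))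
    have h2 := hf a (Finset.mem_insert_self a s)
    have h3 : 0 ≤ ∑ i ∈ s, f i := Finset.sum_nonneg (fun i hi => hf i (Finset.mem_insert_of_mem hi))
    nlinarith

lemma factor_eq (p K : ℕ) (x : ℝ) : ∑ v ∈ Finset.range (K + 1), x ^ e p v =
    1 + ∑ v ∈ Finset.Icc 1 K, x ^ p ^ v := by
  rw [Finset.sum_range_succ']
  have h0 : x ^ e p 0 = 1 := by simp [e]
  rw [h0, add_comm]
  congr 1
  rw [Finset.range_eq_Ico, Finset.sum_Ico_add' (fun v => x ^ e p v) 0 K 1]
  refine Finset.sum_congr ?_ fun v hv => ?_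
  · ext v; simp only [Finset.mem_Ico, Finset.mem_Icc]; omega
  · rw [Finset.mem_Icc] at hv
    have : e p v = p ^ v := by unfold e; rw [if_neg (by omega)]
    rw [this]

lemma factor_le (p K : ℕ) (x : ℝ) (hx0 : 0 ≤ x) (hx1 : x ≤ 1) :
    ∑ v ∈ Finset.range (K + 1), x ^ e p v ≤ K + 1 := by
  have : ∑ v ∈ Finset.range (K + 1), x ^ e p v ≤ ∑ v ∈ Finset.range (K + 1), (1 : ℝ) :=
    Finset.sum_le_sum fun v _ => pow_le_one₀ hx0 hx1
  simpa using this

/-- The set of pairs `(p, v)` with `7 < p ≤ n` prime and `1 ≤ v ≤ log_p n`. -/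
def PV (n : ℕ) : Finset (Σ _ : ℕ, ℕ) :=
  ((PS n).filter (fun p => 7 < p)).sigma (fun p => Finset.Icc 1 (Nat.log p n))

lemma cop210 {p v : ℕ} (hp : p.Prime) (h : 7 < p) : Nat.Coprime (p ^ v) 210 := by
  apply Nat.Coprime.pow_left
  rw [Nat.Prime.coprime_iff_not_dvd hp]
  intro hd
  have h210 : (210 : ℕ) = 2 * 3 * 5 * 7 := by norm_num
  rw [h210, hp.dvd_mul, hp.dvd_mul, hp.dvd_mul] at hd
  rcases hd with ((h1 | h1) | h1) | h1 <;> have := Nat.le_of_dvd (by norm_num) h1 <;> omega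

lemma large_prod (n : ℕ) (a : ℝ) (ha : 0 < a) :
    ∏ p ∈ (PS n).filter (fun p => 7 < p),
      ∑ v ∈ Finset.range (Nat.log p n + 1), Real.exp (-a) ^ e p v ≤
    ∏ i ∈ Finset.range (n + 1), (1 + Real.exp (-(35 / 8 * a)) ^ i) := by
  classical
  set x := Real.exp (-a) with hx
  set y := Real.exp (-(35 / 8 * a)) with hy
  have hx0 : 0 < x := Real.exp_pos _
  have hy0 : 0 < y := Real.exp_pos _
  calc ∏ p ∈ (PS n).filter (fun p => 7 < p), ∑ v ∈ Finset.range (Nat.log p n + 1), x ^ e p v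
      ≤ ∏ p ∈ (PS n).filter (fun p => 7 < p), ∏ v ∈ Finset.Icc 1 (Nat.log p n), (1 + x ^ p ^ v) := by
        refine Finset.prod_le_prod (fun p _ => Finset.sum_nonneg fun v _ => by positivity)
          (fun p _ => ?_)
        rw [factor_eq]
        exact one_add_sum_le_prod _ _ (fun i _ => by positivity)
    _ = ∏ z ∈ PV n, (1 + x ^ z.1 ^ z.2) := by
        rw [PV, Finset.prod_sigma]
    _ ≤ ∏ z ∈ PV n, (1 + y ^ (ct (z.1 ^ z.2) - 1)) := by
        refine Finset.prod_le_prod (fun z _ => by positivity) (fun z hz => ?_)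
        rw [PV, Finset.mem_sigma, Finset.mem_filter, mem_PS] at hz
        have hcop := cop210 (v := z.2) hz.1.1.2 hz.1.2
        have hct := ct_le _ hcop
        have h1 : 35 * (ct (z.1 ^ z.2) - 1) ≤ 8 * z.1 ^ z.2 := by omega
        have h2 : (35 : ℝ) * ((ct (z.1 ^ z.2) - 1 : ℕ) : ℝ) ≤ 8 * ((z.1 ^ z.2 : ℕ) : ℝ) := by
          exact_mod_cast h1
        have h3 : x ^ z.1 ^ z.2 ≤ y ^ (ct (z.1 ^ z.2) - 1) := by
          rw [hx, hy, ← Real.exp_nat_mul, ← Real.exp_nat_mul]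
          apply Real.exp_le_exp.mpr
          nlinarith
        linarith
    _ = ∏ i ∈ (PV n).image (fun z => ct (z.1 ^ z.2) - 1), (1 + y ^ i) := by
        rw [Finset.prod_image]
        intro z hz z' hz' h
        have hz1 := hz
        have hz2 := hz'
        rw [PV, Finset.mem_coe, Finset.mem_sigma, Finset.mem_filter, mem_PS, Finset.mem_Icc] at hz1 hz2
        have k1 : 1 < z.1 ^ z.2 := Nat.one_lt_pow (by omega) hz1.1.1.2.one_lt
        have k2 : 1 < z'.1 ^ z'.2 := Nat.one_lt_pow (by omega) hz2.1.1.2.one_lt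
        have c1 := ct_pos k1
        have c2 := ct_pos k2
        have hc : ct (z.1 ^ z.2) = ct (z'.1 ^ z'.2) := by
          have : ct (z.1 ^ z.2) - 1 = ct (z'.1 ^ z'.2) - 1 := h
          omega
        have heq := ct_inj (cop210 hz1.1.1.2 hz1.1.2) (cop210 hz2.1.1.2 hz2.1.2) hc
        have hp : z.1 = z'.1 := by
          have hd : z.1 ∣ z'.1 ^ z'.2 := by
            rw [← heq]; exact dvd_pow_self _ (by omega)
          exact (Nat.prime_dvd_prime_iff_eq hz1.1.1.2 hz2.1.1.2).mp (hz1.1.1.2.dvd_of_dvd_pow hd)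
        have hv : z.2 = z'.2 := by
          rw [hp] at heq
          exact Nat.pow_right_injective hz2.1.1.2.two_le heq
        exact Sigma.ext hp (heq_of_eq hv)
    _ ≤ ∏ i ∈ Finset.range (n + 1), (1 + y ^ i) := by
        have hsub : (PV n).image (fun z => ct (z.1 ^ z.2) - 1) ⊆ Finset.range (n + 1) := by
          intro i hi
          obtain ⟨z, hz, rfl⟩ := Finset.mem_image.mp hi
          rw [PV, Finset.mem_sigma, Finset.mem_filter, mem_PS, Finset.mem_Icc] at hz
          rw [Finset.mem_range]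
          have h1 := ct_le_self (z.1 ^ z.2)
          have h2 : z.1 ^ z.2 ≤ n := by
            refine Nat.pow_le_of_le_log ?_ hz.2.2
            have := hz.1.1.2.pos
            omega
          omega
        rw [← Finset.prod_sdiff hsub]
        have h1 : 1 ≤ ∏ i ∈ Finset.range (n + 1) \ (PV n).image (fun z => ct (z.1 ^ z.2) - 1),
            (1 + y ^ i) := by
          refine le_trans ?_ (one_add_sum_le_prod _ (fun i => y ^ i) (fun i _ => by positivity))
          have : 0 ≤ ∑ i ∈ Finset.range (n + 1) \ (PV n).image (fun z => ct (z.1 ^ z.2) - 1), y ^ i :=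
            Finset.sum_nonneg fun i _ => by positivity
          linarith
        exact le_mul_of_one_le_left (Finset.prod_nonneg fun i _ => by positivity) h1

/-! ### The infinite product -/

lemma one_add_le_exp3 (z : ℝ) (hz : 0 ≤ z) : 1 + z ≤ Real.exp (z - z ^ 2 / 2 + z ^ 3 / 3) := by
  have hmono : MonotoneOn (fun z : ℝ => z - z ^ 2 / 2 + z ^ 3 / 3 - Real.log (1 + z)) (Set.Ici 0) := by
    refine monotoneOn_of_deriv_nonneg (convex_Ici 0) ?_ ?_ ?_
    · refine ContinuousOn.sub (by fun_prop) ?_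
      refine ContinuousOn.log (by fun_prop) fun x hx => ?_
      have : (0 : ℝ) ≤ x := hx
      linarith
    · intro x hx
      rw [interior_Ici, Set.mem_Ioi] at hx
      have : (1 + x) ≠ 0 := by linarith
      fun_prop (disch := assumption)
    · intro x hx
      rw [interior_Ici, Set.mem_Ioi] at hx
      have hne : (1 + x) ≠ 0 := by linarith
      have h1 : HasDerivAt (fun z : ℝ => z - z ^ 2 / 2 + z ^ 3 / 3 - Real.log (1 + z))
          (1 - (2 * x) / 2 + (3 * x ^ 2) / 3 - 1 / (1 + x)) x := by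
        have hl : HasDerivAt (fun z : ℝ => Real.log (1 + z)) (1 / (1 + x)) x :=
          ((hasDerivAt_id x).const_add 1).log hne
        have h2 : HasDerivAt (fun z : ℝ => z ^ 2) (2 * x) x := by
          simpa using hasDerivAt_pow 2 x
        have h3 : HasDerivAt (fun z : ℝ => z ^ 3) (3 * x ^ 2) x := by
          simpa using hasDerivAt_pow 3 x
        exact (((hasDerivAt_id x).sub (h2.div_const 2)).add (h3.div_const 3)).sub hl
      rw [h1.deriv]
      have : 1 - (2 * x) / 2 + (3 * x ^ 2) / 3 - 1 / (1 + x) = x ^ 3 / (1 + x) := by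
        field_simp; ring
      rw [this]
      positivity
  have h := hmono (Set.mem_Ici.mpr le_rfl) (Set.mem_Ici.mpr hz) hz
  simp only [zero_sub, ne_eq, OfNat.ofNat_ne_zero, not_false_eq_true, zero_pow, zero_div, neg_zero,
    add_zero, Real.log_one, sub_zero] at h
  have h1 : Real.log (1 + z) ≤ z - z ^ 2 / 2 + z ^ 3 / 3 := by linarith
  calc 1 + z = Real.exp (Real.log (1 + z)) := (Real.exp_log (by linarith)).symm
    _ ≤ _ := Real.exp_le_exp.mpr h1

lemma exp_upper (u : ℝ) (h0 : 0 < u) (h1 : u ≤ 1) : (2 - u) * (Real.exp u - 1) ≤ 2 * u := by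
  have hb := Real.exp_bound (x := u) (by rw [abs_of_pos h0]; exact h1) (n := 3) (by norm_num)
  simp only [Finset.sum_range_succ, Finset.sum_range_zero] at hb
  norm_num [Nat.factorial] at hb
  rw [abs_of_pos h0] at hb
  have hb2 := (abs_le.mp hb).2
  have : Real.exp u ≤ 1 + u + u ^ 2 / 2 + u ^ 3 * (2 / 9) := by linarith
  have h3 : 0 < u ^ 3 := by positivity
  have h4 : (2 - u) * (Real.exp u - 1) ≤ (2 - u) * (u + u ^ 2 / 2 + u ^ 3 * (2 / 9)) :=
    mul_le_mul_of_nonneg_left (by linarith) (by linarith)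
  nlinarith [mul_pos h3 h0]

lemma geo (z : ℝ) (h0 : 0 < z) (h1 : z < 1) : HasSum (fun i : ℕ => z ^ (i + 1)) (z / (1 - z)) := by
  have := (hasSum_geometric_of_lt_one h0.le h1).mul_left z
  simpa only [pow_succ', div_eq_mul_inv] using this

lemma geo_upper (u : ℝ) (hu : 0 < u) : Real.exp (-u) / (1 - Real.exp (-u)) ≤ 1 / u := by
  have h0 : 0 < Real.exp (-u) := Real.exp_pos _
  have h1 : Real.exp (-u) < 1 := by
    rw [← Real.exp_zero]; exact Real.exp_lt_exp.mpr (by linarith)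
  rw [div_le_div_iff₀ (by linarith) hu]
  have h2 : Real.exp (-u) * Real.exp u = 1 := by rw [← Real.exp_add]; simp
  have h3 := Real.add_one_le_exp u
  nlinarith

lemma geo_lower (u : ℝ) (hu : 0 < u) (hu1 : u ≤ 1) :
    1 / u - 1 / 2 ≤ Real.exp (-u) / (1 - Real.exp (-u)) := by
  have h0 : 0 < Real.exp (-u) := Real.exp_pos _
  have h1 : Real.exp (-u) < 1 := by
    rw [← Real.exp_zero]; exact Real.exp_lt_exp.mpr (by linarith)
  have h2 : Real.exp (-u) * Real.exp u = 1 := by rw [← Real.exp_add]; simp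
  have h3 := exp_upper u hu hu1
  have h4 : (1 : ℝ) / u - 1 / 2 = (2 - u) / (2 * u) := by field_simp
  rw [h4, div_le_div_iff₀ (by linarith) (by linarith)]
  have h5 : (2 - u) * (Real.exp u - 1) * Real.exp (-u) ≤ 2 * u * Real.exp (-u) :=
    mul_le_mul_of_nonneg_right h3 h0.le
  nlinarith

lemma sum_bound (h : ℝ) (h0 : 0 < h) (h1 : h ≤ 1 / 2) (J : ℕ) :
    ∑ i ∈ Finset.range J, (Real.exp (-h) ^ (i + 1) - (Real.exp (-h) ^ (i + 1)) ^ 2 / 2
      + (Real.exp (-h) ^ (i + 1)) ^ 3 / 3) ≤ 31 / 36 / h + 1 / 4 := by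
  set y := Real.exp (-h) with hy
  have hy0 : 0 < y := Real.exp_pos _
  have hy1 : y < 1 := by
    rw [hy, ← Real.exp_zero]; exact Real.exp_lt_exp.mpr (by linarith)
  have e2 : y ^ 2 = Real.exp (-(2 * h)) := by
    rw [hy, ← Real.exp_nat_mul]; congr 1; push_cast; ring
  have e3 : y ^ 3 = Real.exp (-(3 * h)) := by
    rw [hy, ← Real.exp_nat_mul]; congr 1; push_cast; ring
  have hs1 := geo y hy0 hy1
  have hs2 := geo (y ^ 2) (by positivity) (pow_lt_one₀ hy0.le hy1 (by norm_num))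
  have hs3 := geo (y ^ 3) (by positivity) (pow_lt_one₀ hy0.le hy1 (by norm_num))
  have hs := (hs1.sub (hs2.div_const 2)).add (hs3.div_const 3)
  have hle := sum_le_hasSum (Finset.range J) (fun i _ => ?_) hs
  · have hb : ∑ i ∈ Finset.range J, (y ^ (i + 1) - (y ^ (i + 1)) ^ 2 / 2 + (y ^ (i + 1)) ^ 3 / 3) =
        ∑ i ∈ Finset.range J, (y ^ (i + 1) - (y ^ 2) ^ (i + 1) / 2 + (y ^ 3) ^ (i + 1) / 3) := by
      refine Finset.sum_congr rfl fun i _ => ?_
      ring
    rw [hb]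
    refine hle.trans ?_
    have b1 := geo_upper h h0
    have b2 := geo_lower (2 * h) (by linarith) (by linarith)
    have b3 := geo_upper (3 * h) (by linarith)
    rw [← e2] at b2
    rw [← e3] at b3
    rw [← hy] at b1
    have k2 : 1 / (2 * h) = 1 / 2 * (1 / h) := by field_simp
    have k3 : 1 / (3 * h) = 1 / 3 * (1 / h) := by field_simp
    have k4 : 31 / 36 / h = 31 / 36 * (1 / h) := by field_simp
    rw [k2] at b2
    rw [k3] at b3
    rw [k4]
    linarith
  · have h2 : 0 < y ^ (i + 1) := by positivity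
    have h3 : y ^ (i + 1) ≤ 1 := pow_le_one₀ hy0.le hy1.le
    have e4 : (y ^ 2) ^ (i + 1) = (y ^ (i + 1)) ^ 2 := by ring
    have e5 : (y ^ 3) ^ (i + 1) = (y ^ (i + 1)) ^ 3 := by ring
    rw [e4, e5]
    have h4 : 0 ≤ (y ^ (i + 1)) ^ 3 := by positivity
    nlinarith

lemma prod_bound (h : ℝ) (h0 : 0 < h) (h1 : h ≤ 1 / 2) (n : ℕ) :
    ∏ i ∈ Finset.range (n + 1), (1 + Real.exp (-h) ^ i) ≤ 2 * Real.exp (31 / 36 / h + 1 / 4) := by
  rw [Finset.prod_range_succ']
  have e1 : (1 + Real.exp (-h) ^ 0 : ℝ) = 2 := by norm_num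
  rw [e1, mul_comm]
  refine mul_le_mul_of_nonneg_left ?_ (by norm_num)
  calc ∏ i ∈ Finset.range n, (1 + Real.exp (-h) ^ (i + 1))
      ≤ ∏ i ∈ Finset.range n, Real.exp (Real.exp (-h) ^ (i + 1) - (Real.exp (-h) ^ (i + 1)) ^ 2 / 2
      + (Real.exp (-h) ^ (i + 1)) ^ 3 / 3) :=
        Finset.prod_le_prod (fun i _ => by positivity)
          (fun i _ => one_add_le_exp3 _ (by positivity))
    _ = Real.exp (∑ i ∈ Finset.range n, (Real.exp (-h) ^ (i + 1) - (Real.exp (-h) ^ (i + 1)) ^ 2 / 2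
      + (Real.exp (-h) ^ (i + 1)) ^ 3 / 3)) := (Real.exp_sum _ _).symm
    _ ≤ _ := Real.exp_le_exp.mpr (sum_bound h h0 h1 n)

/-! ### Small primes -/

lemma PS_small (n : ℕ) (hn : 7 ≤ n) : (PS n).filter (fun p => ¬ 7 < p) = {2, 3, 5, 7} := by
  ext p
  simp only [Finset.mem_filter, mem_PS, Finset.mem_insert, Finset.mem_singleton, not_lt]
  constructor
  · rintro ⟨⟨_, hp⟩, h⟩
    interval_cases p <;> revert hp <;> decide
  · rintro (rfl | rfl | rfl | rfl) <;> refine ⟨⟨by omega, by norm_num⟩, by norm_num⟩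

lemma log_bound (p a b n : ℕ) (hn : n ≠ 0) (hb : 0 < b) (h : 2 ^ a ≤ p ^ b) :
    (a : ℝ) * (Nat.log p n : ℝ) ≤ b * (Real.log n / Real.log 2) := by
  have hl2 : 0 < Real.log 2 := Real.log_pos (by norm_num)
  have h1 : (a : ℝ) * Real.log 2 ≤ b * Real.log p := by
    have : Real.log ((2 : ℝ) ^ a) ≤ Real.log ((p : ℝ) ^ b) :=
      Real.log_le_log (by positivity) (by exact_mod_cast h)
    rwa [Real.log_pow, Real.log_pow] at this
  have h2 : (Nat.log p n : ℝ) * Real.log p ≤ Real.log n := by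
    have h3 := Nat.pow_log_le_self p hn
    rcases Nat.eq_zero_or_pos p with rfl | hp
    · simp
      exact Real.log_natCast_nonneg n
    · have : Real.log ((p : ℝ) ^ Nat.log p n) ≤ Real.log (n : ℝ) :=
        Real.log_le_log (by positivity) (by exact_mod_cast h3)
      rwa [Real.log_pow] at this
  rw [mul_div_assoc', le_div_iff₀ hl2]
  have h4 : (0 : ℝ) ≤ (Nat.log p n : ℝ) := Nat.cast_nonneg _
  have hb' : (0 : ℝ) ≤ b := Nat.cast_nonneg _
  nlinarith [mul_le_mul_of_nonneg_right h1 h4, mul_le_mul_of_nonneg_left h2 hb']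

lemma small_bound (n : ℕ) (hn : 8000 ≤ n) :
    2 * Real.exp (1 / 4) * (((Nat.log 2 n : ℝ) + 1) * ((Nat.log 3 n : ℝ) + 1) *
      ((Nat.log 5 n : ℝ) + 1) * ((Nat.log 7 n : ℝ) + 1)) ≤ Real.exp (71 / 630 * Real.sqrt n) := by
  have hnR : (8000 : ℝ) ≤ n := by exact_mod_cast hn
  set u := Real.sqrt n with hu
  have hu89 : 89 ≤ u := by
    rw [hu]; apply Real.le_sqrt_of_sq_le; linarith
  set Λ := Real.log n / Real.log 2 with hΛ
  have hl2 : 0.6931 < Real.log 2 := by
    have := Real.log_two_gt_d9; linarith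
  have hlog : Real.log n = 2 * Real.log u := by
    have : (n : ℝ) = u ^ 2 := by rw [hu, Real.sq_sqrt (by positivity)]
    rw [this, Real.log_pow]; norm_num
  have h89 : Real.log 89 ≤ 13 / 2 * Real.log 2 := by
    have : Real.log ((89 : ℝ) ^ 4) ≤ Real.log ((2 : ℝ) ^ 26) :=
      Real.log_le_log (by positivity) (by norm_num)
    rw [Real.log_pow, Real.log_pow] at this
    push_cast at this
    linarith
  have hlu : Real.log u ≤ Real.log 89 + (u - 89) / 89 := by
    have h1 : Real.log u = Real.log 89 + Real.log (u / 89) := by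
      rw [Real.log_div (by linarith) (by norm_num)]; ring
    have h2 := Real.log_le_sub_one_of_pos (show 0 < u / 89 by positivity)
    rw [h1]
    have : u / 89 - 1 = (u - 89) / 89 := by ring
    linarith
  have hΛle : Λ ≤ 13 + 0.0325 * (u - 89) := by
    rw [hΛ, hlog, div_le_iff₀ (by linarith)]
    nlinarith
  obtain ⟨t, ht⟩ : ∃ t, t = u - 89 := ⟨_, rfl⟩
  have ht0 : 0 ≤ t := by linarith
  rw [← ht] at hΛle
  have hΛ2 := log_bound 2 1 1 n (by omega) (by norm_num) (by norm_num)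
  have hΛ3 := log_bound 3 11 7 n (by omega) (by norm_num) (by norm_num)
  have hΛ5 := log_bound 5 16 7 n (by omega) (by norm_num) (by norm_num)
  have hΛ7 := log_bound 7 14 5 n (by omega) (by norm_num) (by norm_num)
  rw [← hΛ] at hΛ2 hΛ3 hΛ5 hΛ7
  push_cast at hΛ2 hΛ3 hΛ5 hΛ7
  have lin : ∀ A B : ℝ, 0 < A → A + B * t ≤ A * Real.exp (B / A * t) := by
    intro A B hA
    have h1 := Real.add_one_le_exp (B / A * t)
    have h2 : A + B * t = A * (B / A * t + 1) := by field_simp; ring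
    rw [h2]
    exact mul_le_mul_of_nonneg_left h1 hA.le
  have k2 : (Nat.log 2 n : ℝ) + 1 ≤ 14 * Real.exp (0.0325 / 14 * t) :=
    le_trans (by linarith) (lin 14 0.0325 (by norm_num))
  have k3 : (Nat.log 3 n : ℝ) + 1 ≤ 102 / 11 * Real.exp ((7 * 0.0325 / 11) / (102 / 11) * t) :=
    le_trans (by linarith) (lin (102 / 11) (7 * 0.0325 / 11) (by norm_num))
  have k5 : (Nat.log 5 n : ℝ) + 1 ≤ 107 / 16 * Real.exp ((7 * 0.0325 / 16) / (107 / 16) * t) :=
    le_trans (by linarith) (lin (107 / 16) (7 * 0.0325 / 16) (by norm_num))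
  have k7 : (Nat.log 7 n : ℝ) + 1 ≤ 79 / 14 * Real.exp ((5 * 0.0325 / 14) / (79 / 14) * t) :=
    le_trans (by linarith) (lin (79 / 14) (5 * 0.0325 / 14) (by norm_num))
  have hprod : ((Nat.log 2 n : ℝ) + 1) * ((Nat.log 3 n : ℝ) + 1) *
      ((Nat.log 5 n : ℝ) + 1) * ((Nat.log 7 n : ℝ) + 1) ≤
      4899 * Real.exp (t / 100) := by
    calc ((Nat.log 2 n : ℝ) + 1) * ((Nat.log 3 n : ℝ) + 1) *
      ((Nat.log 5 n : ℝ) + 1) * ((Nat.log 7 n : ℝ) + 1) ≤
      (14 * Real.exp (0.0325 / 14 * t)) * (102 / 11 * Real.exp ((7 * 0.0325 / 11) / (102 / 11) * t)) *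
      (107 / 16 * Real.exp ((7 * 0.0325 / 16) / (107 / 16) * t)) *
      (79 / 14 * Real.exp ((5 * 0.0325 / 14) / (79 / 14) * t)) := by gcongr
      _ = (14 * (102 / 11) * (107 / 16) * (79 / 14)) * Real.exp (0.0325 / 14 * t +
        (7 * 0.0325 / 11) / (102 / 11) * t + (7 * 0.0325 / 16) / (107 / 16) * t +
        (5 * 0.0325 / 14) / (79 / 14) * t) := by
        rw [Real.exp_add, Real.exp_add, Real.exp_add]; ring
      _ ≤ 4899 * Real.exp (t / 100) := by
        refine mul_le_mul (by norm_num) (Real.exp_le_exp.mpr ?_) (Real.exp_pos _).le (by norm_num)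
        nlinarith
  have h975 : (9798 : ℝ) ≤ Real.exp (39 / 4) := by
    have e1 : Real.exp (39 / 4) = Real.exp 1 ^ 9 * Real.exp (3 / 4) := by
      rw [← Real.exp_nat_mul, ← Real.exp_add]; norm_num
    rw [e1]
    have h1 : (2.7 : ℝ) ≤ Real.exp 1 := by
      have := Real.exp_one_gt_d9; linarith
    have h2 := Real.add_one_le_exp (3 / 4 : ℝ)
    have h3 : (2.7 : ℝ) ^ 9 ≤ Real.exp 1 ^ 9 := pow_le_pow_left₀ (by norm_num) h1 9
    calc (9798 : ℝ) ≤ 2.7 ^ 9 * (3 / 4 + 1) := by norm_num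
      _ ≤ _ := mul_le_mul h3 h2 (by norm_num) (by positivity)
  calc 2 * Real.exp (1 / 4) * (((Nat.log 2 n : ℝ) + 1) * ((Nat.log 3 n : ℝ) + 1) *
      ((Nat.log 5 n : ℝ) + 1) * ((Nat.log 7 n : ℝ) + 1))
      ≤ 2 * Real.exp (1 / 4) * (4899 * Real.exp (t / 100)) :=
        mul_le_mul_of_nonneg_left hprod (by positivity)
    _ = Real.exp (1 / 4) * 9798 * Real.exp (t / 100) := by ring
    _ ≤ Real.exp (1 / 4) * Real.exp (39 / 4) * Real.exp (t / 100) := by gcongr
    _ = Real.exp (10 + t / 100) := by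
        rw [← Real.exp_add, ← Real.exp_add]; norm_num
    _ ≤ Real.exp (71 / 630 * u) := by
        apply Real.exp_le_exp.mpr
        nlinarith

/-- **The analytic bound**: for `n ≥ 8000`, the number of exponent vectors of weight at most `n` is
at most `exp (√n)`. -/
theorem Cn_le_exp (n : ℕ) (hn : 8000 ≤ n) : (Cn n n : ℝ) ≤ Real.exp (Real.sqrt n) := by
  have hnR : (8000 : ℝ) ≤ n := by exact_mod_cast hn
  obtain ⟨u, hu⟩ : ∃ u, u = Real.sqrt n := ⟨_, rfl⟩
  have hu89 : 89 ≤ u := by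
    rw [hu]; apply Real.le_sqrt_of_sq_le; linarith
  have hun : (n : ℝ) = u * u := by rw [hu, Real.mul_self_sqrt (by positivity)]
  obtain ⟨a, ha⟩ : ∃ a, a = 4 / 9 / u := ⟨_, rfl⟩
  have ha0 : 0 < a := by rw [ha]; positivity
  have hr := Cn_rankin n n (Real.exp (-a)) (Real.exp_pos _)
    (by rw [← Real.exp_zero]; exact Real.exp_le_exp.mpr (by linarith))
  have hsplit : ∏ p ∈ PS n, ∑ v ∈ Finset.range (Nat.log p n + 1), Real.exp (-a) ^ e p v =
      (∏ p ∈ (PS n).filter (fun p => 7 < p), ∑ v ∈ Finset.range (Nat.log p n + 1),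
        Real.exp (-a) ^ e p v) *
      ∏ p ∈ (PS n).filter (fun p => ¬ 7 < p), ∑ v ∈ Finset.range (Nat.log p n + 1),
        Real.exp (-a) ^ e p v :=
    (Finset.prod_filter_mul_prod_filter_not (PS n) (fun p => 7 < p) _).symm
  rw [hsplit, PS_small n (by omega)] at hr
  have hx1 : Real.exp (-a) ≤ 1 := by
    rw [← Real.exp_zero]; exact Real.exp_le_exp.mpr (by linarith)
  have hx0 : 0 ≤ Real.exp (-a) := (Real.exp_pos _).le
  have hsm : ∏ p ∈ ({2, 3, 5, 7} : Finset ℕ), ∑ v ∈ Finset.range (Nat.log p n + 1),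
        Real.exp (-a) ^ e p v ≤ ((Nat.log 2 n : ℝ) + 1) * ((Nat.log 3 n : ℝ) + 1) *
      ((Nat.log 5 n : ℝ) + 1) * ((Nat.log 7 n : ℝ) + 1) := by
    rw [Finset.prod_insert (by decide), Finset.prod_insert (by decide),
      Finset.prod_insert (by decide), Finset.prod_singleton]
    have f2 := factor_le 2 (Nat.log 2 n) _ hx0 hx1
    have f3 := factor_le 3 (Nat.log 3 n) _ hx0 hx1
    have f5 := factor_le 5 (Nat.log 5 n) _ hx0 hx1
    have f7 := factor_le 7 (Nat.log 7 n) _ hx0 hx1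
    have g : ∀ p K : ℕ, 0 ≤ ∑ v ∈ Finset.range (K + 1), Real.exp (-a) ^ e p v :=
      fun p K => Finset.sum_nonneg fun v _ => by positivity
    calc _ ≤ ((Nat.log 2 n : ℝ) + 1) * (((Nat.log 3 n : ℝ) + 1) *
      (((Nat.log 5 n : ℝ) + 1) * ((Nat.log 7 n : ℝ) + 1))) := by
          refine mul_le_mul f2 ?_ ?_ (by positivity)
          · refine mul_le_mul f3 ?_ ?_ (by positivity)
            · exact mul_le_mul f5 f7 (g _ _) (by positivity)
            · exact mul_nonneg (g _ _) (g _ _)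
          · exact mul_nonneg (g _ _) (mul_nonneg (g _ _) (g _ _))
      _ = _ := by ring
  have hlg := large_prod n a ha0
  have hh : 35 / 8 * a ≤ 1 / 2 := by
    rw [ha, mul_div_assoc', div_le_iff₀ (by linarith)]; nlinarith
  have hpb := prod_bound (35 / 8 * a) (by positivity) hh n
  have hS0 : (0 : ℝ) ≤ ((Nat.log 2 n : ℝ) + 1) * ((Nat.log 3 n : ℝ) + 1) *
      ((Nat.log 5 n : ℝ) + 1) * ((Nat.log 7 n : ℝ) + 1) := by positivity
  have hsb := small_bound n hn
  rw [← hu] at hsb ⊢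
  have e31 : 31 / 36 / (35 / 8 * a) = 31 / 70 * u := by
    rw [ha]; field_simp; ring
  rw [e31] at hpb
  have hxn : Real.exp (-a) ^ n = Real.exp (-(4 / 9 * u)) := by
    rw [← Real.exp_nat_mul]; congr 1; rw [ha, hun]; field_simp
  rw [hxn] at hr
  have h1 : (Cn n n : ℝ) * Real.exp (-(4 / 9 * u)) ≤
      (2 * Real.exp (31 / 70 * u + 1 / 4)) * (((Nat.log 2 n : ℝ) + 1) * ((Nat.log 3 n : ℝ) + 1) *
      ((Nat.log 5 n : ℝ) + 1) * ((Nat.log 7 n : ℝ) + 1)) := by
    refine hr.trans (mul_le_mul (hlg.trans hpb) hsm ?_ (by positivity))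
    exact Finset.prod_nonneg fun p _ => Finset.sum_nonneg fun v _ => by positivity
  have h2 : (2 * Real.exp (31 / 70 * u + 1 / 4)) * (((Nat.log 2 n : ℝ) + 1) * ((Nat.log 3 n : ℝ) + 1) *
      ((Nat.log 5 n : ℝ) + 1) * ((Nat.log 7 n : ℝ) + 1)) ≤
      Real.exp (31 / 70 * u) * Real.exp (71 / 630 * u) := by
    rw [Real.exp_add]
    calc _ = Real.exp (31 / 70 * u) * (2 * Real.exp (1 / 4) * (((Nat.log 2 n : ℝ) + 1) *
        ((Nat.log 3 n : ℝ) + 1) * ((Nat.log 5 n : ℝ) + 1) * ((Nat.log 7 n : ℝ) + 1))) := by ring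
      _ ≤ _ := mul_le_mul_of_nonneg_left hsb (Real.exp_pos _).le
  have h3 := h1.trans h2
  have h4 : Real.exp (4 / 9 * u) * Real.exp (-(4 / 9 * u)) = 1 := by
    rw [← Real.exp_add]; simp
  calc (Cn n n : ℝ) = Real.exp (4 / 9 * u) * ((Cn n n : ℝ) * Real.exp (-(4 / 9 * u))) := by
        rw [mul_comm (Cn n n : ℝ), ← mul_assoc, h4, one_mul]
    _ ≤ Real.exp (4 / 9 * u) * (Real.exp (31 / 70 * u) * Real.exp (71 / 630 * u)) :=
        mul_le_mul_of_nonneg_left h3 (Real.exp_pos _).le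
    _ = Real.exp u := by
        rw [← Real.exp_add, ← Real.exp_add]; congr 1; ring

/-- The numbers below `2 ^ 130`. -/
lemma Cn_8000 : Cn 8000 8000 < 2 ^ 130 := by
  have h := Cn_le_exp 8000 le_rfl
  have h1 : Real.sqrt ((8000 : ℕ) : ℝ) ≤ 90 := by
    rw [Real.sqrt_le_left (by norm_num)]; norm_num
  have h2 : Real.exp 90 < (2 : ℝ) ^ 130 := by
    have : (2 : ℝ) ^ 130 = Real.exp (130 * Real.log 2) := by
      rw [mul_comm, Real.exp_mul, Real.exp_log (by norm_num)]; norm_num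
    rw [this]
    apply Real.exp_lt_exp.mpr
    have := Real.log_two_gt_d9; linarith
  have h3 : (Cn 8000 8000 : ℝ) < (2 : ℝ) ^ 130 :=
    lt_of_le_of_lt (h.trans (Real.exp_le_exp.mpr h1)) h2
  exact_mod_cast h3

end Pool.Agent.Q278.OS
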