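import Mathlib
import Pool.Agent.Q278.OS.Ana

/-! The finite range `n < 8000` by Kronecker substitution. -/

set_option autoImplicit false

namespace Pool.Agent.Q278.OS

open Finset Polynomial

/-- `f A`, with `A` evaluated first. -/
def force {α : Type} (A : ℕ) (f : ℕ → α) : α := Nat.casesOn A (f 0) (fun A' => f (A' + 1))

lemma force_eq {α : Type} (A : ℕ) (f : ℕ → α) : force A f = f A := by cases A <;> rfl

/-- the product of the primes below `90` -/
def Q89 : ℕ := 23768741896345550770650537601358310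

/-- Primality test for numbers below `8100`. -/
def isP (k : ℕ) : Bool :=
  bif Nat.ble k 89 then (Nat.beq (Nat.gcd k Q89) k) && Nat.ble 2 k &&
    !(Nat.beq k 6 || Nat.beq k 10 || Nat.beq k 14 || Nat.beq k 15 || Nat.beq k 21 || Nat.beq k 22 ||
      Nat.beq k 26 || Nat.beq k 30 || Nat.beq k 33 || Nat.beq k 34 || Nat.beq k 35 || Nat.beq k 38 ||
      Nat.beq k 39 || Nat.beq k 42 || Nat.beq k 46 || Nat.beq k 51 || Nat.beq k 55 || Nat.beq k 57 ||
      Nat.beq k 58 || Nat.beq k 62 || Nat.beq k 65 || Nat.beq k 66 || Nat.beq k 69 || Nat.beq k 70 ||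
      Nat.beq k 74 || Nat.beq k 77 || Nat.beq k 78 || Nat.beq k 82 || Nat.beq k 85 || Nat.beq k 86 ||
      Nat.beq k 87)
  else Nat.beq (Nat.gcd k Q89) 1

lemma isP_small : ∀ k < 90, (isP k = true ↔ k.Prime) := by decide +kernel

lemma prime_dvd_Q : ∀ p < 90, p.Prime → p ∣ Q89 := by decide +kernel

lemma Q_prod : Q89 = [2, 3, 5, 7, 11, 13, 17, 19, 23, 29, 31, 37, 41, 43, 47, 53,
    59, 61, 67, 71, 73, 79, 83, 89].prod := by decide +kernel

lemma isP_spec (k : ℕ) (hk : k < 8100) : isP k = true ↔ k.Prime := by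
  by_cases h : k < 90
  · exact isP_small k h
  · have h1 : Nat.ble k 89 = false := by
      rw [← Bool.not_eq_true]; intro h2
      have := Nat.le_of_ble_eq_true h2
      omega
    have h2 : isP k = Nat.beq (Nat.gcd k Q89) 1 := by
      unfold isP; rw [h1]; rfl
    rw [h2, Nat.beq_eq]
    constructor
    · intro hg
      by_contra hnp
      have hm := Nat.minFac_prime (show k ≠ 1 by omega)
      have hm2 : k.minFac ^ 2 ≤ k := Nat.minFac_sq_le_self (by omega) hnp
      have hm3 : k.minFac < 90 := by nlinarith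
      have hd := prime_dvd_Q _ hm3 hm
      have := Nat.dvd_gcd (Nat.minFac_dvd k) hd
      rw [hg] at this
      exact hm.one_lt.ne' (Nat.dvd_one.mp this)
    · intro hp
      have : Nat.Coprime k Q89 := by
        rw [hp.coprime_iff_not_dvd, Q_prod, hp.prime.dvd_prod_iff]
        rintro ⟨a, ha, hd⟩
        have h3 : a ≤ 89 ∧ a ≠ 0 := by
          have hall : ∀ a ∈ [2, 3, 5, 7, 11, 13, 17, 19, 23, 29, 31, 37, 41, 43, 47, 53,
              59, 61, 67, 71, 73, 79, 83, 89], a ≤ 89 ∧ a ≠ 0 := by decide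
          exact hall a ha
        have := Nat.le_of_dvd (by omega) hd
        omega
      exact this

/-- the base -/
def b : ℕ := 2 ^ 130

/-- the modulus `b ^ 8001` -/
def M : ℕ := 2 ^ 1040130

lemma M_eq : M = b ^ 8001 := by
  unfold M b
  rw [← pow_mul]

/-- the higher terms of `A (1 + b ^ p + b ^ (p ^ 2) + ...)` -/
def tl (p A : ℕ) : ℕ → ℕ → ℕ
  | 0, _ => 0
  | f + 1, q => bif Nat.ble q 8000 then Nat.add (Nat.shiftLeft A (Nat.mul 130 q)) (tl p A f (Nat.mul q p))
      else 0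

/-- one factor -/
def step (A k : ℕ) : ℕ := bif isP k then Nat.mod (Nat.add A (tl k A 13 k)) M else A

/-- the product of all factors with index `< k`, times `A` -/
def K : ℕ → ℕ → ℕ
  | 0, A => A
  | k + 1, A => force (step A k) (fun A1 => K k A1)

/-- the check of the inequality for `n, n + 1, ...` -/
def chk : ℕ → ℕ → ℕ → ℕ → ℕ → Bool
  | 0, _, _, _, _ => true
  | f + 1, n, r, A, S =>
    force (Nat.div A b) fun A1 => force (Nat.add S (Nat.mod A1 b)) fun S1 =>
    force (Nat.div (Nat.add r (Nat.div (Nat.mul 1024 n) r)) 2) fun r0 =>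
    force (Nat.div (Nat.add r0 (Nat.div (Nat.mul 1024 n) r0)) 2) fun r1 =>
    force (bif Nat.ble (Nat.mul r1 r1) (Nat.mul 1024 n) then r1 else Nat.sub r1 1) fun r2 =>
    force (Nat.add n 1) fun n1 =>
    (Nat.ble (Nat.mul r2 r2) (Nat.mul 1024 n) &&
      Nat.ble (Nat.mul S1 (Nat.pow 10 (Nat.mul 6 r2))) (Nat.pow 1031743 r2)) && chk f n1 r2 A1 S1

/-- the whole computation -/
def comp : Bool := force (K 8001 1) fun R => chk 7999 1 32 R (Nat.mod R b)

lemma comp_true : comp = true := by decide +kernel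

lemma K_lt (n A : ℕ) (hA : A < M) : K n A < M := by
  induction n generalizing A with
  | zero => exact hA
  | succ k ih =>
    have h1 : K (k + 1) A = K k (step A k) := force_eq _ _
    rw [h1]
    apply ih
    unfold step
    cases isP k
    · exact hA
    · exact Nat.mod_lt _ (by rw [M_eq]; unfold b; positivity)

lemma tl_spec (p A : ℕ) (hp : 2 ≤ p) (f j : ℕ) (hj : 1 ≤ j) (h : 8000 < p ^ (j + f)) :
    tl p A f (p ^ j) = A * ∑ v ∈ Finset.Ico j (Nat.log p 8000 + 1), b ^ e p v := by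
  induction f generalizing j with
  | zero =>
    rw [Nat.add_zero] at h
    have h1 : Nat.log p 8000 < j := Nat.log_lt_of_lt_pow (by norm_num) h
    rw [Finset.Ico_eq_empty (by omega), Finset.sum_empty, Nat.mul_zero]; rfl
  | succ f ih =>
    have h1 : tl p A (f + 1) (p ^ j) = bif Nat.ble (p ^ j) 8000 then
      Nat.add (Nat.shiftLeft A (Nat.mul 130 (p ^ j))) (tl p A f (Nat.mul (p ^ j) p)) else 0 := rfl
    rw [h1]
    by_cases hq : p ^ j ≤ 8000
    · have hb : Nat.ble (p ^ j) 8000 = true := Nat.ble_eq.mpr hq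
      rw [hb]
      have h2 : Nat.mul (p ^ j) p = p ^ (j + 1) := (pow_succ p j).symm
      have h3 : j ≤ Nat.log p 8000 := Nat.le_log_of_pow_le (by omega) hq
      have h4 := ih (j + 1) (by omega) (by rwa [show j + 1 + f = j + (f + 1) by omega])
      show Nat.add _ _ = _
      rw [h2, h4, Finset.sum_eq_sum_Ico_succ_bot (by omega : j < Nat.log p 8000 + 1)]
      have h5 : Nat.shiftLeft A (Nat.mul 130 (p ^ j)) = A * b ^ e p j := by
        have : Nat.shiftLeft A (Nat.mul 130 (p ^ j)) = A <<< (130 * p ^ j) := rfl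
        rw [this, Nat.shiftLeft_eq]
        unfold b e
        rw [if_neg (by omega), ← pow_mul]
      rw [h5, Nat.mul_add]; rfl
    · have hb : Nat.ble (p ^ j) 8000 = false := by
        rw [← Bool.not_eq_true]; intro h2
        exact hq (Nat.le_of_ble_eq_true h2)
      rw [hb]
      have h3 : Nat.log p 8000 < j := Nat.log_lt_of_lt_pow (by norm_num) (by omega)
      rw [Finset.Ico_eq_empty (by omega), Finset.sum_empty, Nat.mul_zero]; rfl

lemma step_spec (A k : ℕ) (hk : k < 8100) : step A k ≡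
    A * (if k.Prime then ∑ v ∈ Finset.range (Nat.log k 8000 + 1), b ^ e k v else 1) [MOD M] := by
  unfold step
  by_cases hp : k.Prime
  · rw [(isP_spec k hk).mpr hp, if_pos hp]
    show (Nat.add A (tl k A 13 k)) % M ≡ _ [MOD M]
    have h1 : Nat.add A (tl k A 13 k) = A * ∑ v ∈ Finset.range (Nat.log k 8000 + 1), b ^ e k v := by
      have h2 := tl_spec k A hp.two_le 13 1 le_rfl (by
        calc 8000 < 2 ^ (1 + 13) := by norm_num
          _ ≤ k ^ (1 + 13) := Nat.pow_le_pow_left hp.two_le _)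
      rw [pow_one] at h2
      rw [h2, Finset.range_eq_Ico, Finset.sum_eq_sum_Ico_succ_bot (by omega : 0 < Nat.log k 8000 + 1)]
      have h3 : e k 0 = 0 := by simp [e]
      rw [h3, pow_zero, Nat.mul_add, Nat.mul_one]; rfl
    rw [h1]
    exact Nat.mod_modEq _ _
  · have h1 : isP k = false := by
      rw [← Bool.not_eq_true, isP_spec k hk]; exact hp
    rw [h1, if_neg hp, Nat.mul_one]
    exact Nat.ModEq.refl _

lemma K_spec (n A : ℕ) (hn : n ≤ 8100) : K n A ≡ A * ∏ k ∈ Finset.range n,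
    (if k.Prime then ∑ v ∈ Finset.range (Nat.log k 8000 + 1), b ^ e k v else 1) [MOD M] := by
  induction n generalizing A with
  | zero => rw [Finset.range_zero, Finset.prod_empty, Nat.mul_one]; exact Nat.ModEq.refl _
  | succ k ih =>
    have h1 : K (k + 1) A = K k (step A k) := force_eq _ _
    rw [h1, Finset.prod_range_succ, Nat.mul_comm (∏ k ∈ _, _), ← Nat.mul_assoc]
    exact (ih (step A k) (by omega)).trans (Nat.ModEq.mul_right _ (step_spec A k (by omega)))

lemma K_final : K 8001 1 = (P 8000).eval b % b ^ 8001 := by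
  have h1 := K_spec 8001 1 (by norm_num)
  rw [Nat.one_mul, ← Finset.prod_filter] at h1
  have h2 : (P 8000).eval b = ∏ p ∈ PS 8000, ∑ v ∈ Finset.range (Nat.log p 8000 + 1), b ^ e p v := by
    unfold P
    rw [Polynomial.eval_prod]
    refine Finset.prod_congr rfl fun p _ => ?_
    rw [Polynomial.eval_finsetSum]
    refine Finset.sum_congr rfl fun v _ => ?_
    rw [Polynomial.eval_pow, Polynomial.eval_X]
  have h3 : K 8001 1 ≡ (P 8000).eval b [MOD M] := by
    rw [h2]; exact h1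
  have h4 := K_lt 8001 1 (by rw [M_eq]; unfold b; exact Nat.one_lt_pow (by norm_num) (by norm_num))
  rw [← M_eq]
  unfold Nat.ModEq at h3
  rw [← h3, Nat.mod_eq_of_lt h4]

lemma chk_spec (f n r A S : ℕ) (h : chk f n r A S = true) : ∀ i < f, ∃ s, s * s ≤ 1024 * (n + i) ∧
    (S + ∑ j ∈ Finset.range (i + 1), (A / b ^ (j + 1) % b)) * 10 ^ (6 * s) ≤ 1031743 ^ s := by
  induction f generalizing n r A S with
  | zero => intro i hi; omega
  | succ f ih =>
    have h1 : ∃ r2, ((Nat.ble (Nat.mul r2 r2) (Nat.mul 1024 n) &&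
      Nat.ble (Nat.mul (S + A / b % b) (Nat.pow 10 (Nat.mul 6 r2))) (Nat.pow 1031743 r2)) &&
      chk f (n + 1) r2 (A / b) (S + A / b % b)) = true := by
      unfold chk at h
      simp only [force_eq] at h
      exact ⟨_, h⟩
    obtain ⟨r2, h2⟩ := h1
    rw [Bool.and_eq_true, Bool.and_eq_true] at h2
    obtain ⟨⟨ha, hb⟩, hc⟩ := h2
    have ha' := Nat.le_of_ble_eq_true ha
    have hb' := Nat.le_of_ble_eq_true hb
    intro i hi
    rcases Nat.eq_zero_or_pos i with rfl | hpos
    · refine ⟨r2, ha', ?_⟩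
      rw [Finset.sum_range_one, zero_add, pow_one]
      exact hb'
    · obtain ⟨i', rfl⟩ : ∃ i', i = i' + 1 := ⟨i - 1, by omega⟩
      obtain ⟨s, hs1, hs2⟩ := ih (n + 1) r2 (A / b) (S + A / b % b) hc i' (by omega)
      refine ⟨s, by rw [show n + (i' + 1) = n + 1 + i' by omega]; exact hs1, ?_⟩
      rw [Finset.sum_range_succ', zero_add, pow_one]
      have h3 : ∀ j, A / b / b ^ (j + 1) = A / b ^ (j + 1 + 1) := by
        intro j
        rw [Nat.div_div_eq_div_mul, ← pow_succ']
      simp only [h3] at hs2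
      rw [show S + (∑ j ∈ Finset.range (i' + 1), A / b ^ (j + 1 + 1) % b + A / b % b) =
        S + A / b % b + ∑ j ∈ Finset.range (i' + 1), A / b ^ (j + 1 + 1) % b by omega]
      exact hs2

/-! ### Digits -/

lemma digits_lt (b : ℕ) (c : ℕ → ℕ) (m : ℕ) (hc : ∀ j < m, c j < b) :
    ∑ j ∈ Finset.range m, c j * b ^ j < b ^ m := by
  induction m with
  | zero => simp
  | succ m ih =>
    rw [Finset.sum_range_succ, pow_succ]
    have h1 := ih (fun j hj => hc j (by omega))
    have h2 := hc m (by omega)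
    nlinarith [pow_pos (show 0 < b by omega) m]

lemma digits_get (b : ℕ) (c : ℕ → ℕ) (m : ℕ) (hc : ∀ j < m, c j < b) (i : ℕ) (hi : i < m) :
    (∑ j ∈ Finset.range m, c j * b ^ j) / b ^ i % b = c i := by
  have hb : 0 < b := by have := hc i hi; omega
  obtain ⟨d, rfl⟩ : ∃ d, m = i + (d + 1) := ⟨m - i - 1, by omega⟩
  rw [Finset.sum_range_add, Finset.sum_range_succ']
  have h1 := digits_lt b c i (fun j hj => hc j (by omega))
  have h2 : ∑ k ∈ Finset.range d, c (i + (k + 1)) * b ^ (i + (k + 1)) =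
      b ^ i * (b * ∑ k ∈ Finset.range d, c (i + (k + 1)) * b ^ k) := by
    rw [Finset.mul_sum, Finset.mul_sum]
    refine Finset.sum_congr rfl fun k _ => ?_
    rw [pow_add, pow_succ]; ring
  rw [h2, Nat.add_zero]
  have h3 : ∑ x ∈ Finset.range i, c x * b ^ x +
      (b ^ i * (b * ∑ k ∈ Finset.range d, c (i + (k + 1)) * b ^ k) + c i * b ^ i) =
      ∑ x ∈ Finset.range i, c x * b ^ x +
      b ^ i * (c i + b * ∑ k ∈ Finset.range d, c (i + (k + 1)) * b ^ k) := by ring
  rw [h3, Nat.add_mul_div_left _ _ (pow_pos hb i), Nat.div_eq_of_lt h1, zero_add,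
    Nat.add_mul_mod_self_left, Nat.mod_eq_of_lt (hc i hi)]

lemma digits_get0 (b : ℕ) (c : ℕ → ℕ) (m : ℕ) (hc : ∀ j < m, c j < b) (hi : 0 < m) :
    (∑ j ∈ Finset.range m, c j * b ^ j) % b = c 0 := by
  have := digits_get b c m hc 0 hi
  rwa [pow_zero, Nat.div_one] at this

lemma eval_mod (p : ℕ[X]) (b m : ℕ) (hc : ∀ j < m, p.coeff j < b) :
    p.eval b % b ^ m = ∑ j ∈ Finset.range m, p.coeff j * b ^ j := by
  rw [Polynomial.eval_eq_sum_range' (show p.natDegree < m + (p.natDegree + 1) by omega),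
    Finset.sum_range_add]
  have h2 : ∑ k ∈ Finset.range (p.natDegree + 1), p.coeff (m + k) * b ^ (m + k) =
      b ^ m * ∑ k ∈ Finset.range (p.natDegree + 1), p.coeff (m + k) * b ^ k := by
    rw [Finset.mul_sum]
    refine Finset.sum_congr rfl fun k _ => ?_
    rw [pow_add]; ring
  rw [h2, Nat.add_mul_mod_self_left, Nat.mod_eq_of_lt (digits_lt b _ m hc)]

lemma coeff_lt (j : ℕ) (hj : j < 8001) : (P 8000).coeff j < b := by
  refine lt_of_le_of_lt ?_ Cn_8000
  unfold Cn
  exact Finset.single_le_sum (f := fun j => (P 8000).coeff j) (fun _ _ => Nat.zero_le _)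
    (Finset.mem_range.mpr hj)

lemma K_digit (i : ℕ) (hi : i < 8001) : K 8001 1 / b ^ i % b = (P 8000).coeff i := by
  rw [K_final, eval_mod _ _ _ (fun j hj => coeff_lt j hj)]
  exact digits_get b _ 8001 (fun j hj => coeff_lt j hj) i hi

lemma comp_unf : chk 7999 1 32 (K 8001 1) (Nat.mod (K 8001 1) b) = true := by
  have h : comp = chk 7999 1 32 (K 8001 1) (Nat.mod (K 8001 1) b) :=
    force_eq (K 8001 1) (fun R => chk 7999 1 32 R (Nat.mod R b))
  rw [← h]
  exact comp_true

lemma K_digit0 : K 8001 1 % b = (P 8000).coeff 0 := by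
  rw [K_final, eval_mod _ _ _ (fun j hj => coeff_lt j hj)]
  exact digits_get0 b _ 8001 (fun j hj => coeff_lt j hj) (by norm_num)

lemma nmod (a b : ℕ) : Nat.mod a b = a % b := rfl

lemma Cn_check (n : ℕ) (h1 : 1 ≤ n) (h2 : n < 8000) : ∃ s, s * s ≤ 1024 * n ∧
    Cn 8000 n * 10 ^ (6 * s) ≤ 1031743 ^ s := by
  obtain ⟨s, hs1, hs2⟩ := chk_spec 7999 1 32 (K 8001 1) (Nat.mod (K 8001 1) b) comp_unf (n - 1)
    (by omega)
  refine ⟨s, by rwa [show 1 + (n - 1) = n by omega] at hs1, ?_⟩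
  have h3 : Nat.mod (K 8001 1) b = (P 8000).coeff 0 := by
    rw [nmod]
    exact K_digit0
  rw [h3, show n - 1 + 1 = n by omega] at hs2
  have h4 : ∑ j ∈ Finset.range n, K 8001 1 / b ^ (j + 1) % b =
      ∑ j ∈ Finset.range n, (P 8000).coeff (j + 1) := by
    refine Finset.sum_congr rfl fun j hj => ?_
    rw [Finset.mem_range] at hj
    exact K_digit (j + 1) (by omega)
  rw [h4] at hs2
  unfold Cn
  rw [Finset.sum_range_succ', Nat.add_comm]
  exact hs2

lemma exp_32 : (1.031743 : ℝ) ≤ Real.exp (1 / 32) := by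
  have h := Real.sum_le_exp_of_nonneg (show (0 : ℝ) ≤ 1 / 32 by norm_num) 4
  refine le_trans ?_ h
  norm_num [Finset.sum_range_succ, Nat.factorial]

theorem Cn_small (n : ℕ) (h1 : 1 ≤ n) (h2 : n < 8000) : (Cn 8000 n : ℝ) ≤ Real.exp (Real.sqrt n) := by
  obtain ⟨s, hs1, hs2⟩ := Cn_check n h1 h2
  have h3 : (s : ℝ) / 32 ≤ Real.sqrt n := by
    apply Real.le_sqrt_of_sq_le
    have : ((s * s : ℕ) : ℝ) ≤ ((1024 * n : ℕ) : ℝ) := by exact_mod_cast hs1
    push_cast at this
    rw [div_pow, div_le_iff₀ (by norm_num)]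
    nlinarith
  have h4 : (Cn 8000 n : ℝ) * 10 ^ (6 * s) ≤ 1031743 ^ s := by exact_mod_cast hs2
  have h5 : (Cn 8000 n : ℝ) ≤ 1.031743 ^ s := by
    have h6 : (1.031743 : ℝ) ^ s = 1031743 ^ s / 10 ^ (6 * s) := by
      rw [pow_mul, ← div_pow]; norm_num
    rw [h6, le_div_iff₀ (by positivity)]
    exact h4
  calc (Cn 8000 n : ℝ) ≤ 1.031743 ^ s := h5
    _ ≤ Real.exp (1 / 32) ^ s := pow_le_pow_left₀ (by norm_num) exp_32 s
    _ = Real.exp (s / 32) := by rw [← Real.exp_nat_mul]; congr 1; ring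
    _ ≤ _ := Real.exp_le_exp.mpr h3

/-- **The bound for all `n`.** -/
theorem main (n : ℕ) (h1 : 1 ≤ n) : ((Ords n).card : ℝ) ≤ Real.exp (Real.sqrt n) := by
  by_cases h : n < 8000
  · refine le_trans ?_ (Cn_small n h1 h)
    exact_mod_cast card_Ords_le 8000 n h.le
  · refine le_trans ?_ (Cn_le_exp n (not_lt.mp h))
    exact_mod_cast card_Ords_le n n le_rfl


end Pool.Agent.Q278.OS
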